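import Mathlib

namespace Pool.Agent.V11325.GB

open Finset Polynomial

variable {N : Type*} [DecidableEq N]

theorem frobPow (Fq R : Type*) [Field Fq] [Fintype Fq] [CommRing R] [Algebra Fq R] (s : ℕ) (x : R) :
    ((FiniteField.frobeniusAlgHom Fq R) ^ s) x = x ^ (Fintype.card Fq) ^ s := by
  rw [AlgHom.coe_pow, FiniteField.coe_frobeniusAlgHom, pow_iterate]

theorem moore_left {Fq R : Type*} [Field Fq] [Fintype Fq] [CommRing R] [IsDomain R] [Algebra Fq R]
    (T : Finset N) (h : N → R) (hli : LinearIndepOn Fq h (T : Set N)) (m : ℕ) (hm : m ≤ T.card)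
    (a : ℕ → R) (ha : ∀ l ∈ T, ∑ s ∈ range m, a s * h l ^ (Fintype.card Fq) ^ s = 0) :
    ∀ s < m, a s = 0 := by
  classical
  set q := Fintype.card Fq with hq
  have hq2 : 1 < q := Fintype.one_lt_card
  set p : R[X] := ∑ s ∈ range m, C (a s) * X ^ q ^ s with hp
  by_cases hm0 : m = 0
  · intro s hs; omega
  have hroots : ∀ μ : T → Fq, p.eval (∑ l : T, μ l • h l) = 0 := by
    intro μ
    rw [hp, eval_finset_sum]
    have h1 : ∀ s ∈ range m, (C (a s) * X ^ q ^ s : R[X]).eval (∑ l : T, μ l • h l)
        = ∑ l : T, μ l • (a s * h l ^ q ^ s) := by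
      intro s _
      rw [eval_mul, eval_C, eval_pow, eval_X, ← frobPow Fq R s, map_sum, Finset.mul_sum]
      apply Finset.sum_congr rfl
      intro l _
      rw [map_smul, frobPow, mul_smul_comm]
    rw [Finset.sum_congr rfl h1, Finset.sum_comm]
    apply Finset.sum_eq_zero
    intro l _
    rw [← Finset.smul_sum, ha l l.2, smul_zero]
  have hinj : Function.Injective (fun μ : T → Fq => ∑ l : T, μ l • h l) := by
    have := hli
    rw [LinearIndepOn, Fintype.linearIndependent_iff] at this
    intro x y hxy
    have h2 := this (fun l => x l - y l) (by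
      simp only [sub_smul, Finset.sum_sub_distrib]
      exact sub_eq_zero.mpr hxy)
    funext l
    exact sub_eq_zero.mp (h2 l)
  have hp0 : p = 0 := by
    by_contra hne
    have hdeg : p.natDegree ≤ q ^ (m - 1) := by
      apply natDegree_sum_le_of_forall_le
      intro s hs
      refine (natDegree_C_mul_X_pow_le _ _).trans ?_
      rw [mem_range] at hs
      exact Nat.pow_le_pow_right (by omega) (by omega)
    have hcard : (Finset.univ.image (fun μ : T → Fq => ∑ l : T, μ l • h l)).card = q ^ T.card := by
      rw [Finset.card_image_of_injective _ hinj, Finset.card_univ, Fintype.card_fun,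
        Fintype.card_coe]
    have hsub : (Finset.univ.image (fun μ : T → Fq => ∑ l : T, μ l • h l)) ⊆ p.roots.toFinset := by
      intro x hx
      rw [Finset.mem_image] at hx
      obtain ⟨μ, _, rfl⟩ := hx
      rw [Multiset.mem_toFinset, mem_roots hne]
      exact hroots μ
    have h1 := Finset.card_le_card hsub
    have h2 := Multiset.toFinset_card_le p.roots
    have h3 := card_roots' p
    have h4 : q ^ (m - 1) < q ^ T.card := Nat.pow_lt_pow_right hq2 (by omega)
    omega
  intro s hs
  have h5 : p.coeff (q ^ s) = a s := by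
    rw [hp, finset_sum_coeff]
    rw [Finset.sum_eq_single s]
    · simp
    · intro t _ hts
      rw [coeff_C_mul, coeff_X_pow, if_neg, mul_zero]
      intro hh
      exact hts (Nat.pow_right_injective hq2 hh).symm
    · intro hns
      exact absurd (mem_range.mpr hs) hns
  rw [← h5, hp0, coeff_zero]

theorem moore_right {Fq R : Type*} [Field Fq] [Fintype Fq] [CommRing R] [IsDomain R] [Algebra Fq R]
    (T : Finset N) (h : N → R) (hli : LinearIndepOn Fq h (T : Set N))
    (c : N → R) (hc : ∀ s < T.card, ∑ l ∈ T, c l * h l ^ (Fintype.card Fq) ^ s = 0) :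
    ∀ l ∈ T, c l = 0 := by
  classical
  set q := Fintype.card Fq with hq
  let e := T.equivFin
  let M : Matrix (Fin T.card) (Fin T.card) R := fun s l => h (e.symm l) ^ q ^ (s : ℕ)
  have hdet : M.det ≠ 0 := by
    intro h0
    obtain ⟨v, hv0, hv⟩ := Matrix.exists_vecMul_eq_zero_iff.mpr h0
    apply hv0
    have := moore_left (Fq := Fq) T h hli T.card le_rfl (fun s => if hs : s < T.card then v ⟨s, hs⟩ else 0) ?_
    · funext s
      have h2 := this s s.2
      simpa using h2
    · intro l hl
      have h3 := congrFun hv (e ⟨l, hl⟩)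
      rw [Matrix.vecMul, dotProduct] at h3
      rw [← Fin.sum_univ_eq_sum_range (fun s => (if hs : s < T.card then v ⟨s, hs⟩ else 0) * h l ^ q ^ s)]
      simpa [M] using h3
  have hv : M.mulVec (fun l => c (e.symm l)) = 0 := by
    funext s
    rw [Matrix.mulVec, dotProduct]
    have h1 := hc s s.2
    rw [← Finset.sum_coe_sort T (fun l => c l * h l ^ q ^ (s : ℕ))] at h1
    rw [← Equiv.sum_comp e.symm] at h1
    simp only [M, Pi.zero_apply]
    rw [← h1]
    apply Finset.sum_congr rfl
    intro l _
    ring
  by_contra hcon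
  push Not at hcon
  obtain ⟨l, hl, hcl⟩ := hcon
  apply hdet
  apply Matrix.exists_mulVec_eq_zero_iff.mp
  refine ⟨_, ?_, hv⟩
  intro h0
  have := congrFun h0 (e ⟨l, hl⟩)
  simp at this
  exact hcl this

end Pool.Agent.V11325.GB
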