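import Mathlib
import Pool.Agent.V11325.GB.Moore

namespace Pool.Agent.V11325.GB

open Finset

variable {N ι : Type*} [DecidableEq N] [DecidableEq ι]

/-- A relation among words supported on `T i` that satisfy `ρ i` Moore equations. -/
structure Rel {R : Type*} [CommRing R] (q : ℕ) (h : N → R) (I : Finset ι) (T : ι → Finset N)
    (ρ : ι → ℕ) (c : ι → N → R) : Prop where
  supp : ∀ i ∈ I, ∀ l, l ∉ T i → c i l = 0
  eqs : ∀ i ∈ I, ∀ s < ρ i, ∑ l ∈ T i, c i l * h l ^ q ^ s = 0
  sum : ∀ l, ∑ i ∈ I, c i l = 0

def Indep {R : Type*} [CommRing R] (q : ℕ) (h : N → R) (I : Finset ι) (T : ι → Finset N)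
    (ρ : ι → ℕ) : Prop := ∀ c, Rel q h I T ρ c → ∀ i ∈ I, ∀ l, c i l = 0

def Pos (I : Finset ι) (T : ι → Finset N) (ρ : ι → ℕ) : Prop := ∀ i ∈ I, ρ i < (T i).card

def Star (I : Finset ι) (T : ι → Finset N) (ρ : ι → ℕ) : Prop :=
  ∀ Ω ⊆ I, Ω.Nonempty → ∃ i0 ∈ Ω, ∑ i ∈ Ω, (T i).card + ρ i0 ≤ (Ω.biUnion T).card + ∑ i ∈ Ω, ρ i

theorem step_inf [Fintype N] {F : Type*} [Field F] (q : ℕ) (hq : 1 < q) (I : Finset ι)
    (T : ι → Finset N) (ρ : ι → ℕ) (hρ : ∀ i ∈ I, 1 ≤ ρ i) (j : N)
    (hind : Indep (R := MvPolynomial N F) q MvPolynomial.X I (fun l => (T l).erase j)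
      (fun l => if j ∈ T l then ρ l - 1 else ρ l)) :
    Indep (R := MvPolynomial N F) q MvPolynomial.X I T ρ := by
  classical
  intro c hc
  by_contra hcon
  push Not at hcon
  let Φ : MvPolynomial N F →ₐ[F] Polynomial (MvPolynomial N F) :=
    MvPolynomial.aeval (fun l => if l = j then Polynomial.X else Polynomial.C (MvPolynomial.X l))
  have hΦX : ∀ l, l ≠ j → Φ (MvPolynomial.X l) = Polynomial.C (MvPolynomial.X l) := by
    intro l hl
    simp [Φ, hl]
  have hΦj : Φ (MvPolynomial.X j) = Polynomial.X := by simp [Φ]
  have hinv : ∀ p, Polynomial.eval (MvPolynomial.X j) (Φ p) = p := by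
    intro p
    induction p using MvPolynomial.induction_on with
    | C a =>
      have : Φ (MvPolynomial.C a) = Polynomial.C (MvPolynomial.C a) := by
        simp only [Φ, MvPolynomial.algHom_C]
        rfl
      rw [this, Polynomial.eval_C]
    | add p q hp hq => rw [map_add, Polynomial.eval_add, hp, hq]
    | mul_X p n hp =>
      rw [map_mul, Polynomial.eval_mul, hp]
      by_cases hn : n = j
      · rw [hn, hΦj, Polynomial.eval_X]
      · rw [hΦX n hn, Polynomial.eval_C]
  have hΦ0 : ∀ p, Φ p = 0 → p = 0 := by
    intro p hp
    rw [← hinv p, hp, Polynomial.eval_zero]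
  -- some nonzero entry away from j
  have hne : ∃ i ∈ I, ∃ l, l ≠ j ∧ c i l ≠ 0 := by
    by_contra hno
    push Not at hno
    obtain ⟨i, hi, l, hl⟩ := hcon
    by_cases hlj : l = j
    · subst hlj
      by_cases hjT : l ∈ T i
      · have h1 := hc.eqs i hi 0 (hρ i hi)
        rw [Finset.sum_eq_single l] at h1
        · simp only [pow_zero, pow_one] at h1
          rcases mul_eq_zero.mp h1 with h2 | h2
          · exact hl h2
          · exact MvPolynomial.X_ne_zero l h2
        · intro b _ hb
          rw [hno i hi b hb, zero_mul]
        · intro h; exact absurd hjT h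
      · exact hl (hc.supp i hi l hjT)
    · exact hl (hno i hi l hlj)
  obtain ⟨i1, hi1, l1, hl1, hc1⟩ := hne
  let S : Finset (ι × N) := (I ×ˢ univ).filter (fun p => p.2 ≠ j ∧ c p.1 p.2 ≠ 0)
  have hS : S.Nonempty := ⟨(i1, l1), by simp [S, hi1, hl1, hc1]⟩
  obtain ⟨⟨i2, l2⟩, hmem, hmax⟩ := Finset.exists_max_image S
    (fun p => (Φ (c p.1 p.2)).natDegree) hS
  simp only [S, mem_filter, mem_product, mem_univ, and_true] at hmem hmax
  set D := (Φ (c i2 l2)).natDegree with hD
  have hdeg : ∀ i ∈ I, ∀ l, l ≠ j → (Φ (c i l)).natDegree ≤ D := by
    intro i hi l hl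
    by_cases h0 : c i l = 0
    · rw [h0, map_zero, Polynomial.natDegree_zero]; exact Nat.zero_le _
    · exact hmax (i, l) ⟨hi, hl, h0⟩
  let c' : ι → N → MvPolynomial N F := fun i l => if l = j then 0 else (Φ (c i l)).coeff D
  have hrel : Rel q (MvPolynomial.X : N → MvPolynomial N F) I (fun l => (T l).erase j)
      (fun l => if j ∈ T l then ρ l - 1 else ρ l) c' := by
    refine ⟨?_, ?_, ?_⟩
    · intro i hi l hl
      by_cases hlj : l = j
      · simp [c', hlj]
      · have : l ∉ T i := fun h => hl (mem_erase.mpr ⟨hlj, h⟩)
        simp [c', hlj, hc.supp i hi l this]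
    · intro i hi s hs
      have hEq : ∀ s < ρ i, ∑ l ∈ T i, Φ (c i l) * (Φ (MvPolynomial.X l)) ^ q ^ s = 0 := by
        intro s hs
        have := congrArg Φ (hc.eqs i hi s hs)
        rw [map_sum, map_zero] at this
        rw [← this]
        apply Finset.sum_congr rfl
        intro l _
        rw [map_mul, map_pow]
      have hgen : ∀ s, ∑ l ∈ (T i).erase j, c' i l * MvPolynomial.X l ^ q ^ s
          = (∑ l ∈ (T i).erase j, Φ (c i l) * (Φ (MvPolynomial.X l)) ^ q ^ s).coeff D := by
        intro s
        rw [Polynomial.finset_sum_coeff]
        apply Finset.sum_congr rfl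
        intro l hl
        have hlj : l ≠ j := (mem_erase.mp hl).1
        rw [hΦX l hlj, ← Polynomial.C_pow, Polynomial.coeff_mul_C]
        simp [c', hlj]
      rw [hgen]
      by_cases hjT : j ∈ T i
      · rw [if_pos hjT] at hs
        have h1 := hEq s (by omega)
        have h2 := hEq (ρ i - 1) (by have := hρ i hi; omega)
        rw [← Finset.sum_erase_add _ _ hjT, hΦj] at h1 h2
        have h3 : (∑ l ∈ (T i).erase j, Φ (c i l) * (Φ (MvPolynomial.X l)) ^ q ^ (ρ i - 1)).natDegree
            ≤ D := by
          apply Polynomial.natDegree_sum_le_of_forall_le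
          intro l hl
          have hlj : l ≠ j := (mem_erase.mp hl).1
          rw [hΦX l hlj, ← Polynomial.C_pow]
          exact (Polynomial.natDegree_mul_C_le _ _).trans (hdeg i hi l hlj)
        have h4 : (Φ (c i j) * Polynomial.X ^ q ^ s).coeff D = 0 := by
          by_cases h0 : Φ (c i j) = 0
          · rw [h0, zero_mul, Polynomial.coeff_zero]
          · have h5 : Φ (c i j) * Polynomial.X ^ q ^ (ρ i - 1)
                = - ∑ l ∈ (T i).erase j, Φ (c i l) * (Φ (MvPolynomial.X l)) ^ q ^ (ρ i - 1) := by
              linear_combination h2
            have h6 : (Φ (c i j) * Polynomial.X ^ q ^ (ρ i - 1)).natDegree ≤ D := by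
              rw [h5, Polynomial.natDegree_neg]; exact h3
            rw [Polynomial.natDegree_mul_X_pow _ h0] at h6
            apply Polynomial.coeff_eq_zero_of_natDegree_lt
            rw [Polynomial.natDegree_mul_X_pow _ h0]
            have h7 : q ^ s < q ^ (ρ i - 1) := Nat.pow_lt_pow_right hq (by omega)
            omega
        have h8 := congrArg (fun p => Polynomial.coeff p D) h1
        simp only [Polynomial.coeff_add, Polynomial.coeff_zero] at h8
        rw [h4, add_zero] at h8
        exact h8
      · rw [if_neg hjT] at hs
        rw [Finset.erase_eq_of_notMem hjT, hEq s hs, Polynomial.coeff_zero]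
    · intro l
      by_cases hlj : l = j
      · simp [c', hlj]
      · simp only [c', if_neg hlj]
        rw [← Polynomial.finset_sum_coeff, ← map_sum, hc.sum l, map_zero, Polynomial.coeff_zero]
  have h9 := hind c' hrel i2 hmem.1 l2
  simp only [c', if_neg hmem.2.1] at h9
  have h10 : (Φ (c i2 l2)).leadingCoeff = 0 := h9
  rw [Polynomial.leadingCoeff_eq_zero] at h10
  exact hmem.2.2 (hΦ0 _ h10)

theorem linInd_X [Fintype N] (Fq F : Type*) [Field Fq] [Field F] [Algebra Fq F] (T : Set N) :
    LinearIndepOn Fq (MvPolynomial.X : N → MvPolynomial N F) T := by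
  have h1 : LinearIndependent F (MvPolynomial.X : N → MvPolynomial N F) := by
    rw [Fintype.linearIndependent_iff]
    intro g hg i
    have := congrArg (MvPolynomial.coeff (Finsupp.single i 1)) hg
    simpa [MvPolynomial.coeff_sum, MvPolynomial.coeff_smul, MvPolynomial.coeff_X',
      Finsupp.single_left_inj] using this
  have h2 : LinearIndependent Fq (MvPolynomial.X : N → MvPolynomial N F) :=
    h1.restrict_scalars (by
      intro a b hab
      simpa [Algebra.smul_def] using hab)
  exact h2.linearIndepOn T

theorem generic [Fintype N] {Fq F : Type*} [Field Fq] [Fintype Fq] [Field F] [Algebra Fq F] :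
    ∀ (μ : ℕ) (I : Finset ι) (T : ι → Finset N) (ρ : ι → ℕ),
      ∑ i ∈ I, (T i).card + I.card + (I.biUnion T).card ≤ μ + ∑ i ∈ I, ρ i →
      Pos I T ρ → Star I T ρ →
      Indep (R := MvPolynomial N F) (Fintype.card Fq) MvPolynomial.X I T ρ := by
  intro μ
  have hq1 : 1 < Fintype.card Fq := Fintype.one_lt_card
  induction μ with
  | zero =>
    intro I T ρ hμ hpos _ c _ i hi
    exfalso
    have h1 : ∑ i ∈ I, ρ i ≤ ∑ i ∈ I, (T i).card := Finset.sum_le_sum (fun i hi => (hpos i hi).le)
    have h2 : 0 < I.card := Finset.card_pos.mpr ⟨i, hi⟩
    omega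
  | succ μ ih =>
    intro I T ρ hμ hpos hstar
    -- trivial case
    by_cases hI1 : I.card ≤ 1
    · intro c hc i hi l
      have h1 := hc.sum l
      have hI : I = {i} := by
        apply Finset.eq_singleton_iff_unique_mem.mpr
        refine ⟨hi, fun x hx => ?_⟩
        exact Finset.card_le_one.mp hI1 x hx i hi
      rw [hI, Finset.sum_singleton] at h1
      exact h1
    -- subfamilies
    have hsubfam : ∀ Ω ⊆ I, Ω.card < I.card →
        Indep (R := MvPolynomial N F) (Fintype.card Fq) MvPolynomial.X Ω T ρ := by
      intro Ω hΩ hlt
      apply ih Ω T ρ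
      · have h1 : ∑ i ∈ I \ Ω, (T i).card + ∑ i ∈ Ω, (T i).card = ∑ i ∈ I, (T i).card :=
          Finset.sum_sdiff hΩ
        have h2 : ∑ i ∈ I \ Ω, ρ i + ∑ i ∈ Ω, ρ i = ∑ i ∈ I, ρ i := Finset.sum_sdiff hΩ
        have h3 : ∑ i ∈ I \ Ω, ρ i ≤ ∑ i ∈ I \ Ω, (T i).card :=
          Finset.sum_le_sum (fun i hi => (hpos i (Finset.sdiff_subset hi)).le)
        have h4 : (Ω.biUnion T).card ≤ (I.biUnion T).card :=
          Finset.card_le_card (Finset.biUnion_subset_biUnion_of_subset_left T hΩ)
        omega
      · intro i hi; exact hpos i (hΩ hi)
      · intro Ω' hΩ' hne; exact hstar Ω' (hΩ'.trans hΩ) hne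
    by_cases htight : ∃ Ω ⊆ I, 2 ≤ Ω.card ∧ Ω.card < I.card ∧
        ∀ i0 ∈ Ω, (Ω.biUnion T).card + ∑ i ∈ Ω, ρ i ≤ ∑ i ∈ Ω, (T i).card + ρ i0
    · obtain ⟨Ω, hΩ, hΩ2, hΩlt, htΩ⟩ := htight
      have hΩne : Ω.Nonempty := Finset.card_pos.mp (by omega)
      obtain ⟨i0, hi0, hmin⟩ := Finset.exists_min_image Ω ρ hΩne
      have hi0I : i0 ∈ I := hΩ hi0
      have hi0n : i0 ∉ I \ Ω := fun h => (Finset.mem_sdiff.mp h).2 hi0
      have hT' : ∀ i, i ≠ i0 → Function.update T i0 (Ω.biUnion T) i = T i := by
        intro i hi; rw [Function.update_of_ne hi]
      have hnei : ∀ i ∈ I \ Ω, i ≠ i0 := fun i hi h => hi0n (h ▸ hi)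
      have hmerged : Indep (R := MvPolynomial N F) (Fintype.card Fq) MvPolynomial.X
          (insert i0 (I \ Ω)) (Function.update T i0 (Ω.biUnion T)) ρ := by
        apply ih
        · rw [Finset.sum_insert hi0n, Finset.sum_insert hi0n, Finset.card_insert_of_notMem hi0n,
            Function.update_self]
          have h0 : ∑ i ∈ I \ Ω, (Function.update T i0 (Ω.biUnion T) i).card
              = ∑ i ∈ I \ Ω, (T i).card :=
            Finset.sum_congr rfl (fun i hi => by rw [hT' i (hnei i hi)])
          rw [h0]
          have h1 : ∑ i ∈ I \ Ω, (T i).card + ∑ i ∈ Ω, (T i).card = ∑ i ∈ I, (T i).card :=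
            Finset.sum_sdiff hΩ
          have h2 : ∑ i ∈ I \ Ω, ρ i + ∑ i ∈ Ω, ρ i = ∑ i ∈ I, ρ i := Finset.sum_sdiff hΩ
          have h3 : (I \ Ω).card = I.card - Ω.card := Finset.card_sdiff_of_subset hΩ
          have h4 : ((insert i0 (I \ Ω)).biUnion (Function.update T i0 (Ω.biUnion T))).card
              ≤ (I.biUnion T).card := by
            apply Finset.card_le_card
            intro x hx
            rw [Finset.mem_biUnion] at hx ⊢
            obtain ⟨i, hi, hxi⟩ := hx
            by_cases hii : i = i0
            · rw [hii, Function.update_self, Finset.mem_biUnion] at hxi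
              obtain ⟨i', hi', hxi'⟩ := hxi
              exact ⟨i', hΩ hi', hxi'⟩
            · rw [hT' i hii] at hxi
              rcases Finset.mem_insert.mp hi with h | h
              · exact absurd h hii
              · exact ⟨i, (Finset.mem_sdiff.mp h).1, hxi⟩
          have h5 := htΩ i0 hi0
          omega
        · intro i hi
          by_cases hii : i = i0
          · rw [hii, Function.update_self]
            exact (hpos i0 hi0I).trans_le
              (Finset.card_le_card (Finset.subset_biUnion_of_mem T hi0))
          · rw [hT' i hii]
            rcases Finset.mem_insert.mp hi with h | h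
            · exact absurd h hii
            · exact hpos i (Finset.mem_sdiff.mp h).1
        · intro Ω' hΩ' hne'
          by_cases hmem : i0 ∈ Ω'
          · -- expand
            have hsub1 : Ω'.erase i0 ⊆ I \ Ω := by
              intro x hx
              rcases Finset.mem_insert.mp (hΩ' (Finset.mem_of_mem_erase hx)) with h | h
              · exact absurd h (Finset.ne_of_mem_erase hx)
              · exact h
            have hdisj : Disjoint (Ω'.erase i0) Ω := by
              rw [Finset.disjoint_left]
              intro x hx hx'
              exact (Finset.mem_sdiff.mp (hsub1 hx)).2 hx'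
            obtain ⟨i1, hi1, hle⟩ := hstar (Ω'.erase i0 ∪ Ω)
              (Finset.union_subset (hsub1.trans Finset.sdiff_subset) hΩ)
              (hΩne.mono Finset.subset_union_right)
            rw [Finset.sum_union hdisj, Finset.sum_union hdisj] at hle
            have h0 : ∑ i ∈ Ω'.erase i0, (Function.update T i0 (Ω.biUnion T) i).card
                = ∑ i ∈ Ω'.erase i0, (T i).card :=
              Finset.sum_congr rfl (fun i hi => by rw [hT' i (Finset.ne_of_mem_erase hi)])
            have h1 : ∑ i ∈ Ω', (Function.update T i0 (Ω.biUnion T) i).card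
                = ∑ i ∈ Ω'.erase i0, (T i).card + (Ω.biUnion T).card := by
              rw [← Finset.sum_erase_add _ _ hmem, h0, Function.update_self]
            have h2 : ∑ i ∈ Ω', ρ i = ∑ i ∈ Ω'.erase i0, ρ i + ρ i0 :=
              (Finset.sum_erase_add _ _ hmem).symm
            have h3 : Ω'.biUnion (Function.update T i0 (Ω.biUnion T))
                = (Ω'.erase i0 ∪ Ω).biUnion T := by
              ext x
              simp only [Finset.mem_biUnion, Finset.mem_union]
              constructor
              · rintro ⟨i, hi, hx⟩
                by_cases hii : i = i0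
                · rw [hii, Function.update_self, Finset.mem_biUnion] at hx
                  obtain ⟨i', hi', hx'⟩ := hx
                  exact ⟨i', Or.inr hi', hx'⟩
                · rw [hT' i hii] at hx
                  exact ⟨i, Or.inl (Finset.mem_erase.mpr ⟨hii, hi⟩), hx⟩
              · rintro ⟨i, hi | hi, hx⟩
                · refine ⟨i, Finset.mem_of_mem_erase hi, ?_⟩
                  rw [hT' i (Finset.ne_of_mem_erase hi)]
                  exact hx
                · refine ⟨i0, hmem, ?_⟩
                  rw [Function.update_self, Finset.mem_biUnion]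
                  exact ⟨i, hi, hx⟩
            rw [h1, h2, h3]
            have h5 := htΩ i0 hi0
            rcases Finset.mem_union.mp hi1 with h | h
            · refine ⟨i1, Finset.mem_of_mem_erase h, ?_⟩
              omega
            · refine ⟨i0, hmem, ?_⟩
              have := hmin i1 h
              omega
          · have hsub1 : Ω' ⊆ I \ Ω := by
              intro x hx
              rcases Finset.mem_insert.mp (hΩ' hx) with h | h
              · exact absurd (h ▸ hx) hmem
              · exact h
            obtain ⟨i1, hi1, hle⟩ := hstar Ω' (hsub1.trans Finset.sdiff_subset) hne'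
            refine ⟨i1, hi1, ?_⟩
            have h0 : ∑ i ∈ Ω', (Function.update T i0 (Ω.biUnion T) i).card
                = ∑ i ∈ Ω', (T i).card :=
              Finset.sum_congr rfl (fun i hi => by rw [hT' i (fun h => hmem (h ▸ hi))])
            have h3 : Ω'.biUnion (Function.update T i0 (Ω.biUnion T)) = Ω'.biUnion T :=
              Finset.biUnion_congr rfl (fun i hi => by rw [hT' i (fun h => hmem (h ▸ hi))])
            rw [h0, h3]
            exact hle
      intro c hc
      -- merged relation
      have hrel' : Rel (Fintype.card Fq) (MvPolynomial.X : N → MvPolynomial N F)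
          (insert i0 (I \ Ω)) (Function.update T i0 (Ω.biUnion T)) ρ
          (Function.update c i0 (fun l => ∑ i ∈ Ω, c i l)) := by
        refine ⟨?_, ?_, ?_⟩
        · intro i hi l hl
          by_cases hii : i = i0
          · rw [hii, Function.update_self] at hl ⊢
            apply Finset.sum_eq_zero
            intro i' hi'
            exact hc.supp i' (hΩ hi') l (fun h => hl (Finset.mem_biUnion.mpr ⟨i', hi', h⟩))
          · rw [Function.update_of_ne hii] at hl ⊢
            rcases Finset.mem_insert.mp hi with h | h
            · exact absurd h hii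
            · exact hc.supp i (Finset.mem_sdiff.mp h).1 l hl
        · intro i hi s hs
          by_cases hii : i = i0
          · rw [hii] at hs ⊢
            rw [Function.update_self, Function.update_self]
            simp only [Finset.sum_mul]
            rw [Finset.sum_comm]
            apply Finset.sum_eq_zero
            intro i' hi'
            rw [← hc.eqs i' (hΩ hi') s (lt_of_lt_of_le hs (hmin i' hi'))]
            symm
            apply Finset.sum_subset (Finset.subset_biUnion_of_mem T hi')
            intro x _ hx
            rw [hc.supp i' (hΩ hi') x hx, zero_mul]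
          · rw [Function.update_of_ne hii, Function.update_of_ne hii]
            rcases Finset.mem_insert.mp hi with h | h
            · exact absurd h hii
            · exact hc.eqs i (Finset.mem_sdiff.mp h).1 s hs
        · intro l
          rw [Finset.sum_insert hi0n, Function.update_self]
          have h0 : ∑ i ∈ I \ Ω, Function.update c i0 (fun l => ∑ i ∈ Ω, c i l) i l
              = ∑ i ∈ I \ Ω, c i l :=
            Finset.sum_congr rfl (fun i hi => by rw [Function.update_of_ne (hnei i hi)])
          rw [h0, add_comm, Finset.sum_sdiff hΩ]
          exact hc.sum l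
      have hz := hmerged _ hrel'
      have hz1 : ∀ i ∈ I \ Ω, ∀ l, c i l = 0 := by
        intro i hi l
        have := hz i (Finset.mem_insert_of_mem hi) l
        rwa [Function.update_of_ne (hnei i hi)] at this
      have hz2 : ∀ l, ∑ i ∈ Ω, c i l = 0 := by
        intro l
        have := hz i0 (Finset.mem_insert_self _ _) l
        rwa [Function.update_self] at this
      have hrelΩ : Rel (Fintype.card Fq) (MvPolynomial.X : N → MvPolynomial N F) Ω T ρ c :=
        ⟨fun i hi => hc.supp i (hΩ hi), fun i hi => hc.eqs i (hΩ hi), hz2⟩
      have hz3 := hsubfam Ω hΩ hΩlt c hrelΩ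
      intro i hi l
      by_cases hiΩ : i ∈ Ω
      · exact hz3 i hiΩ l
      · exact hz1 i (Finset.mem_sdiff.mpr ⟨hi, hiΩ⟩) l
    · -- no proper tight set
      push Not at htight
      have hIne : I.Nonempty := Finset.card_pos.mp (by omega)
      obtain ⟨i0, hi0, hmin⟩ := Finset.exists_min_image I ρ hIne
      by_cases huniq : ∀ i ∈ I, i ≠ i0 → ρ i0 < ρ i
      · -- unique minimum: raise it
        intro c hc
        have heq0 : ∑ l ∈ T i0, c i0 l * MvPolynomial.X l ^ (Fintype.card Fq) ^ (ρ i0) = 0 := by
          have h1 : ∀ i ∈ I, i ≠ i0 →
              ∑ l, c i l * (MvPolynomial.X l : MvPolynomial N F) ^ (Fintype.card Fq) ^ (ρ i0) = 0 := by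
            intro i hi hne
            rw [← hc.eqs i hi (ρ i0) (huniq i hi hne)]
            symm
            apply Finset.sum_subset (Finset.subset_univ _)
            intro x _ hx
            rw [hc.supp i hi x hx, zero_mul]
          have h2 : ∑ i ∈ I, ∑ l, c i l * (MvPolynomial.X l : MvPolynomial N F)
              ^ (Fintype.card Fq) ^ (ρ i0) = 0 := by
            rw [Finset.sum_comm]
            apply Finset.sum_eq_zero
            intro l _
            rw [← Finset.sum_mul, hc.sum l, zero_mul]
          rw [Finset.sum_eq_single i0 h1 (fun h => absurd hi0 h)] at h2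
          rw [← h2]
          apply Finset.sum_subset (Finset.subset_univ _)
          intro x _ hx
          rw [hc.supp i0 hi0 x hx, zero_mul]
        by_cases hd : (T i0).card = ρ i0 + 1
        · have hz : ∀ l, c i0 l = 0 := by
            intro l
            by_cases hl : l ∈ T i0
            · apply moore_right (Fq := Fq) (T i0) (MvPolynomial.X : N → MvPolynomial N F)
                (linInd_X Fq F _) (c i0) ?_ l hl
              intro s hs
              rw [hd] at hs
              rcases Nat.lt_succ_iff_lt_or_eq.mp hs with h | h
              · exact hc.eqs i0 hi0 s h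
              · rw [h]; exact heq0
            · exact hc.supp i0 hi0 l hl
          have hrel' : Rel (Fintype.card Fq) (MvPolynomial.X : N → MvPolynomial N F)
              (I.erase i0) T ρ c := by
            refine ⟨fun i hi => hc.supp i (Finset.mem_of_mem_erase hi),
              fun i hi => hc.eqs i (Finset.mem_of_mem_erase hi), fun l => ?_⟩
            have := hc.sum l
            rw [← Finset.sum_erase_add _ _ hi0, hz l, add_zero] at this
            exact this
          have hz3 := hsubfam (I.erase i0) (Finset.erase_subset _ _)
            (Finset.card_erase_lt_of_mem hi0) c hrel'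
          intro i hi l
          by_cases hii : i = i0
          · rw [hii]; exact hz l
          · exact hz3 i (Finset.mem_erase.mpr ⟨hii, hi⟩) l
        · have hd2 : ρ i0 + 1 < (T i0).card := by
            have := hpos i0 hi0
            omega
          have hind : Indep (R := MvPolynomial N F) (Fintype.card Fq) MvPolynomial.X I T
              (Function.update ρ i0 (ρ i0 + 1)) := by
            have hsum : ∀ Ω : Finset ι, i0 ∈ Ω →
                ∑ i ∈ Ω, Function.update ρ i0 (ρ i0 + 1) i = ∑ i ∈ Ω, ρ i + 1 := by
              intro Ω hΩ
              rw [← Finset.sum_erase_add _ _ hΩ, ← Finset.sum_erase_add _ ρ hΩ,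
                Function.update_self]
              have : ∑ i ∈ Ω.erase i0, Function.update ρ i0 (ρ i0 + 1) i
                  = ∑ i ∈ Ω.erase i0, ρ i :=
                Finset.sum_congr rfl
                  (fun i hi => by rw [Function.update_of_ne (Finset.ne_of_mem_erase hi)])
              rw [this]; ring
            apply ih
            · rw [hsum I hi0]; omega
            · intro i hi
              by_cases hii : i = i0
              · rw [hii, Function.update_self]; exact hd2
              · rw [Function.update_of_ne hii]; exact hpos i hi
            · intro Ω hΩ hne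
              obtain ⟨i1, hi1, hle⟩ := hstar Ω hΩ hne
              refine ⟨i1, hi1, ?_⟩
              by_cases hmem : i0 ∈ Ω
              · rw [hsum Ω hmem]
                have : Function.update ρ i0 (ρ i0 + 1) i1 ≤ ρ i1 + 1 := by
                  by_cases hii : i1 = i0
                  · rw [hii, Function.update_self]
                  · rw [Function.update_of_ne hii]; omega
                omega
              · have h1 : ∑ i ∈ Ω, Function.update ρ i0 (ρ i0 + 1) i = ∑ i ∈ Ω, ρ i :=
                  Finset.sum_congr rfl
                    (fun i hi => by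
                      have hii : i ≠ i0 := fun h => hmem (h ▸ hi)
                      rw [Function.update_of_ne hii])
                have h2 : i1 ≠ i0 := fun h => hmem (h ▸ hi1)
                rw [h1, Function.update_of_ne h2]
                exact hle
          apply hind c
          refine ⟨hc.supp, ?_, hc.sum⟩
          intro i hi s hs
          by_cases hii : i = i0
          · subst hii
            rw [Function.update_self] at hs
            rcases Nat.lt_succ_iff_lt_or_eq.mp hs with h | h
            · exact hc.eqs i hi s h
            · rw [h]; exact heq0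
          · rw [Function.update_of_ne hii] at hs
            exact hc.eqs i hi s hs
      · push Not at huniq
        obtain ⟨i1, hi1, hne01, hρ1⟩ := huniq
        have hρeq : ρ i1 = ρ i0 := le_antisymm hρ1 (hmin i1 hi1)
        have hpairsub : ({i0, i1} : Finset ι) ⊆ I := by
          intro x hx
          rcases Finset.mem_insert.mp hx with h | h
          · rw [h]; exact hi0
          · rw [Finset.mem_singleton.mp h]; exact hi1
        have hpair : (T i0).card + (T i1).card ≤ (T i0 ∪ T i1).card + ρ i0 := by
          obtain ⟨i2, hi2, hle⟩ := hstar {i0, i1} hpairsub ⟨i0, Finset.mem_insert_self _ _⟩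
          rw [Finset.sum_pair hne01.symm, Finset.sum_pair hne01.symm] at hle
          have h1 : ({i0, i1} : Finset ι).biUnion T = T i0 ∪ T i1 := by
            ext x; simp
          rw [h1, hρeq] at hle
          have h2 := hmin i2 (hpairsub hi2)
          omega
        by_cases hρ0 : ρ i0 = 0
        · -- disjoint supports
          have hcard2 : I.card = 2 := by
            by_contra hne2
            have h1 := htight {i0, i1} hpairsub (by rw [Finset.card_pair hne01.symm])
              (by rw [Finset.card_pair hne01.symm]; omega)
            obtain ⟨i2, hi2, hlt⟩ := h1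
            rw [Finset.sum_pair hne01.symm, Finset.sum_pair hne01.symm] at hlt
            have h1 : ({i0, i1} : Finset ι).biUnion T = T i0 ∪ T i1 := by
              ext x; simp
            rw [h1, hρeq, hρ0] at hlt
            have h2 := Finset.card_union_le (T i0) (T i1)
            omega
          have hIeq : I = {i0, i1} := by
            symm
            apply Finset.eq_of_subset_of_card_le hpairsub
            rw [Finset.card_pair hne01.symm, hcard2]
          have hdisj : Disjoint (T i0) (T i1) := by
            rw [← Finset.card_union_eq_card_add_card]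
            have h2 := Finset.card_union_le (T i0) (T i1)
            omega
          intro c hc
          have hs : ∀ l, c i0 l + c i1 l = 0 := by
            intro l
            have := hc.sum l
            rwa [hIeq, Finset.sum_pair hne01.symm] at this
          have hz : ∀ l, c i0 l = 0 ∧ c i1 l = 0 := by
            intro l
            by_cases hl : l ∈ T i0
            · have h1 : c i1 l = 0 := hc.supp i1 hi1 l (Finset.disjoint_left.mp hdisj hl)
              have h2 := hs l
              rw [h1, add_zero] at h2
              exact ⟨h2, h1⟩
            · have h1 : c i0 l = 0 := hc.supp i0 hi0 l hl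
              have h2 := hs l
              rw [h1, zero_add] at h2
              exact ⟨h1, h2⟩
          intro i hi l
          rw [hIeq] at hi
          rcases Finset.mem_insert.mp hi with h | h
          · rw [h]; exact (hz l).1
          · rw [Finset.mem_singleton.mp h]; exact (hz l).2
        · -- main step
          have hρpos : ∀ i ∈ I, 1 ≤ ρ i := by
            intro i hi
            have := hmin i hi
            omega
          have hj : ∃ j ∈ T i0, j ∉ T i1 := by
            by_contra hno
            push Not at hno
            have hsub : T i0 ⊆ T i1 := hno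
            rw [Finset.union_eq_right.mpr hsub] at hpair
            have := hpos i0 hi0
            omega
          obtain ⟨j, hj0, hj1⟩ := hj
          apply step_inf _ hq1 I T ρ hρpos j
          have hcardT : ∀ i ∈ I, ((T i).erase j).card + (if j ∈ T i then 1 else 0) = (T i).card := by
            intro i _
            by_cases hji : j ∈ T i
            · rw [if_pos hji, Finset.card_erase_add_one hji]
            · rw [if_neg hji, Finset.erase_eq_of_notMem hji, add_zero]
          have hρT : ∀ i ∈ I, (if j ∈ T i then ρ i - 1 else ρ i) + (if j ∈ T i then 1 else 0)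
              = ρ i := by
            intro i hi
            have := hρpos i hi
            by_cases hji : j ∈ T i
            · rw [if_pos hji, if_pos hji]; omega
            · rw [if_neg hji, if_neg hji, add_zero]
          have hsumT : ∀ Ω ⊆ I, ∑ i ∈ Ω, ((T i).erase j).card
              + ∑ i ∈ Ω, (if j ∈ T i then 1 else 0) = ∑ i ∈ Ω, (T i).card := by
            intro Ω hΩ
            rw [← Finset.sum_add_distrib]
            exact Finset.sum_congr rfl (fun i hi => hcardT i (hΩ hi))
          have hsumρ : ∀ Ω ⊆ I, ∑ i ∈ Ω, (if j ∈ T i then ρ i - 1 else ρ i)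
              + ∑ i ∈ Ω, (if j ∈ T i then 1 else 0) = ∑ i ∈ Ω, ρ i := by
            intro Ω hΩ
            rw [← Finset.sum_add_distrib]
            exact Finset.sum_congr rfl (fun i hi => hρT i (hΩ hi))
          have hbi : ∀ Ω : Finset ι, Ω.biUnion (fun l => (T l).erase j)
              = (Ω.biUnion T).erase j := by
            intro Ω
            ext x
            simp only [Finset.mem_biUnion, Finset.mem_erase]
            constructor
            · rintro ⟨i, hi, hx, hx'⟩; exact ⟨hx, i, hi, hx'⟩
            · rintro ⟨hx, i, hi, hx'⟩; exact ⟨i, hi, hx, hx'⟩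
          apply ih
          · have h1 := hsumT I (Finset.Subset.refl _)
            have h2 := hsumρ I (Finset.Subset.refl _)
            have h3 : (I.biUnion (fun l => (T l).erase j)).card + 1 = (I.biUnion T).card := by
              rw [hbi, Finset.card_erase_add_one]
              exact Finset.mem_biUnion.mpr ⟨i0, hi0, hj0⟩
            omega
          · intro i hi
            have h1 := hcardT i hi
            have h2 := hρT i hi
            have h3 := hpos i hi
            show (if j ∈ T i then ρ i - 1 else ρ i) < ((T i).erase j).card
            omega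
          · intro Ω hΩ hne
            have h1 := hsumT Ω hΩ
            have h2 := hsumρ Ω hΩ
            rw [hbi]
            by_cases hjΩ : j ∈ Ω.biUnion T
            · have h3 := Finset.card_erase_add_one hjΩ
              -- need strictness
              have hkey : ∃ i2 ∈ Ω, ∑ i ∈ Ω, (T i).card
                  + (if j ∈ T i2 then ρ i2 - 1 else ρ i2) + 1
                  ≤ (Ω.biUnion T).card + ∑ i ∈ Ω, ρ i := by
                by_cases hcase : 2 ≤ Ω.card ∧ Ω.card < I.card
                · obtain ⟨i2, hi2, hlt⟩ := htight Ω hΩ hcase.1 hcase.2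
                  refine ⟨i2, hi2, ?_⟩
                  have := hρT i2 (hΩ hi2)
                  omega
                · by_cases hone : Ω.card = 1
                  · obtain ⟨l, hl⟩ := Finset.card_eq_one.mp hone
                    obtain ⟨i2, hi2, hle⟩ := hstar Ω hΩ hne
                    have hi2l : i2 = l := by rw [hl] at hi2; exact Finset.mem_singleton.mp hi2
                    have hjl : j ∈ T i2 := by
                      rw [hl, Finset.singleton_biUnion] at hjΩ
                      rw [hi2l]; exact hjΩ
                    refine ⟨i2, hi2, ?_⟩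
                    have h4 := hρpos i2 (hΩ hi2)
                    rw [if_pos hjl]
                    omega
                  · have hpos1 : 0 < Ω.card := Finset.card_pos.mpr hne
                    have hΩI : Ω = I := by
                      apply Finset.eq_of_subset_of_card_le hΩ
                      by_contra hlt
                      exact hcase ⟨by omega, by omega⟩
                    obtain ⟨i2, hi2, hle⟩ := hstar Ω hΩ hne
                    refine ⟨i0, by rw [hΩI]; exact hi0, ?_⟩
                    rw [if_pos hj0]
                    have h4 := hmin i2 (hΩ hi2)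
                    have h5 := hρpos i0 hi0
                    omega
              obtain ⟨i2, hi2, hle⟩ := hkey
              refine ⟨i2, hi2, ?_⟩
              show ∑ i ∈ Ω, ((T i).erase j).card + (if j ∈ T i2 then ρ i2 - 1 else ρ i2)
                ≤ ((Ω.biUnion T).erase j).card + ∑ i ∈ Ω, (if j ∈ T i then ρ i - 1 else ρ i)
              omega
            · obtain ⟨i2, hi2, hle⟩ := hstar Ω hΩ hne
              refine ⟨i2, hi2, ?_⟩
              rw [Finset.erase_eq_of_notMem hjΩ]
              have := hρT i2 (hΩ hi2)
              show ∑ i ∈ Ω, ((T i).erase j).card + (if j ∈ T i2 then ρ i2 - 1 else ρ i2)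
                ≤ (Ω.biUnion T).card + ∑ i ∈ Ω, (if j ∈ T i then ρ i - 1 else ρ i)
              omega

end Pool.Agent.V11325.GB
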