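import Mathlib
import Pool.Agent.V11325.GB.Generic

namespace Pool.Agent.V11325.GB

open Finset

theorem exists_word {N F : Type*} [DecidableEq N] [Field F] (q : ℕ) (T : Finset N) (h : N → F)
    (m : ℕ) (hm : m < T.card) :
    ∃ w : N → F, w ≠ 0 ∧ (∀ l, l ∉ T → w l = 0) ∧ ∀ s < m, ∑ l ∈ T, w l * h l ^ q ^ s = 0 := by
  classical
  let f : (T → F) →ₗ[F] (Fin m → F) :=
    { toFun := fun v s => ∑ l : T, v l * h l ^ q ^ (s : ℕ)
      map_add' := fun v w => by
        funext s
        simp [add_mul, Finset.sum_add_distrib]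
      map_smul' := fun a v => by
        funext s
        simp [mul_assoc, Finset.mul_sum] }
  have hker : LinearMap.ker f ≠ ⊥ := by
    apply LinearMap.ker_ne_bot_of_finrank_lt
    simpa using hm
  obtain ⟨v, hv, hv0⟩ := Submodule.exists_mem_ne_zero_of_ne_bot hker
  refine ⟨fun l => if hl : l ∈ T then v ⟨l, hl⟩ else 0, ?_, ?_, ?_⟩
  · intro h0
    apply hv0
    funext l
    have := congrFun h0 l
    simpa using this
  · intro l hl
    simp [hl]
  · intro s hs
    have h1 := congrFun (LinearMap.mem_ker.mp hv) ⟨s, hs⟩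
    rw [← Finset.sum_coe_sort T]
    have h2 : f v ⟨s, hs⟩ = ∑ l : T, v l * h l ^ q ^ s := rfl
    rw [h2] at h1
    rw [Pi.zero_apply] at h1
    rw [← h1]
    apply Finset.sum_congr rfl
    intro l _
    simp

variable {Fq F : Type*} [Field Fq] [Fintype Fq] [Field F] [Algebra Fq F]

theorem g_indep {n : ℕ} (h : Fin n → F) (hli : LinearIndependent Fq h) (w : Fin n → F) (hw : w ≠ 0)
    (hs : ∀ s < n - 1, ∑ l, w l * h l ^ (Fintype.card Fq) ^ s = 0) : LinearIndependent Fq w := by
  classical
  rw [Fintype.linearIndependent_iff]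
  intro lam hlam
  by_contra hcon
  push Not at hcon
  obtain ⟨j0, hj0⟩ := hcon
  set mu : Fin n → Fq := fun l => lam l / lam j0 with hmu
  have hmu0 : mu j0 = 1 := by simp [hmu, hj0]
  have hmus : ∑ l, mu l • w l = 0 := by
    have h1 : ∀ l, mu l • w l = (lam j0)⁻¹ • (lam l • w l) := by
      intro l
      rw [smul_smul, hmu]
      congr 1
      field_simp
    rw [Finset.sum_congr rfl (fun l _ => h1 l), ← Finset.smul_sum, hlam, smul_zero]
  set h' : Fin n → F := fun l => h l - mu l • h j0 with hh'
  have hli' : LinearIndepOn Fq h' ((Finset.univ.erase j0 : Finset (Fin n)) : Set (Fin n)) := by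
    rw [linearIndepOn_finset_iff]
    intro f hf
    have h1 : ∑ l ∈ Finset.univ.erase j0, f l • h l
        + (-(∑ l ∈ Finset.univ.erase j0, f l * mu l)) • h j0 = 0 := by
      rw [neg_smul, ← sub_eq_add_neg, Finset.sum_smul, ← Finset.sum_sub_distrib, ← hf]
      apply Finset.sum_congr rfl
      intro l _
      rw [hh', smul_sub, smul_smul]
    rw [Fintype.linearIndependent_iff] at hli
    have h2 := hli (fun l => if l = j0 then -(∑ l ∈ Finset.univ.erase j0, f l * mu l) else f l) (by
      rw [← Finset.sum_erase_add _ _ (Finset.mem_univ j0), if_pos rfl, ← h1]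
      congr 1
      apply Finset.sum_congr rfl
      intro l hl
      rw [if_neg (Finset.ne_of_mem_erase hl)])
    intro l hl
    have := h2 l
    rwa [if_neg (Finset.ne_of_mem_erase hl)] at this
  have hcard : (Finset.univ.erase j0 : Finset (Fin n)).card = n - 1 := by
    rw [Finset.card_erase_of_mem (Finset.mem_univ _), Finset.card_univ, Fintype.card_fin]
  have hh'0 : h' j0 = 0 := by simp [hh', hmu0]
  have hq0 : Fintype.card Fq ≠ 0 := Fintype.card_ne_zero
  have hz := moore_right (Fq := Fq) (Finset.univ.erase j0) h' hli' w (by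
    intro s hs'
    rw [hcard] at hs'
    have h1 : ∑ l, w l * h' l ^ (Fintype.card Fq) ^ s = 0 := by
      have h2 : ∀ l, w l * h' l ^ (Fintype.card Fq) ^ s
          = w l * h l ^ (Fintype.card Fq) ^ s - (mu l • w l) * h j0 ^ (Fintype.card Fq) ^ s := by
        intro l
        rw [← frobPow Fq F s (h' l), hh', map_sub, map_smul, frobPow, frobPow, mul_sub,
          mul_smul_comm, smul_mul_assoc]
      rw [Finset.sum_congr rfl (fun l _ => h2 l), Finset.sum_sub_distrib, hs s hs',
        ← Finset.sum_mul, hmus, zero_mul, sub_zero]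
    rw [← Finset.sum_erase_add _ _ (Finset.mem_univ j0), hh'0,
      zero_pow (pow_ne_zero _ hq0), mul_zero, add_zero] at h1
    exact h1)
  have hwj0 : w j0 = 0 := by
    rw [← Finset.sum_erase_add _ _ (Finset.mem_univ j0), Finset.sum_eq_zero, zero_add] at hlam
    · exact (smul_eq_zero.mp hlam).resolve_left hj0
    · intro l hl
      rw [hz l hl, smul_zero]
  apply hw
  funext l
  by_cases hl : l = j0
  · rw [hl]; exact hwj0
  · exact hz l (Finset.mem_erase.mpr ⟨hl, Finset.mem_univ _⟩)

/-- the words orthogonal to the first `r` Moore rows -/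
def dualS (F : Type*) [Field F] (q r : ℕ) {n : ℕ} (h : Fin n → F) : Submodule F (Fin n → F) where
  carrier := {c | ∀ s < r, ∑ l, c l * h l ^ q ^ s = 0}
  zero_mem' := by intro s _; simp
  add_mem' := by
    intro a b ha hb s hs
    simp only [Pi.add_apply, add_mul, Finset.sum_add_distrib]
    rw [ha s hs, hb s hs, add_zero]
  smul_mem' := by
    intro a b hb s hs
    simp only [Pi.smul_apply, smul_eq_mul, mul_assoc]
    rw [← Finset.mul_sum, hb s hs, mul_zero]

theorem dualS_finrank {n : ℕ} (r : ℕ) (hr : r ≤ n) (h : Fin n → F) (hli : LinearIndependent Fq h) :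
    Module.finrank F (dualS F (Fintype.card Fq) r h) ≤ n - r := by
  classical
  obtain ⟨T, _, hT⟩ := Finset.exists_subset_card_eq (s := (Finset.univ : Finset (Fin n))) (n := r)
    (by simpa using hr)
  let f : dualS F (Fintype.card Fq) r h →ₗ[F] ({l // l ∈ Tᶜ} → F) :=
    { toFun := fun c l => c.1 l
      map_add' := fun _ _ => rfl
      map_smul' := fun _ _ => rfl }
  have hinj : Function.Injective f := by
    rw [← LinearMap.ker_eq_bot, LinearMap.ker_eq_bot']
    intro c hc
    have h1 : ∀ l, l ∉ T → c.1 l = 0 := by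
      intro l hl
      exact congrFun hc ⟨l, Finset.mem_compl.mpr hl⟩
    have h2 := moore_right (Fq := Fq) T h (hli.linearIndepOn _) c.1 (by
      intro s hs
      rw [hT] at hs
      rw [← c.2 s hs]
      apply Finset.sum_subset (Finset.subset_univ _)
      intro x _ hx
      rw [h1 x hx, zero_mul])
    apply Subtype.ext
    funext l
    by_cases hl : l ∈ T
    · exact h2 l hl
    · exact h1 l hl
  have h3 := LinearMap.finrank_le_finrank_of_injective hinj
  rw [Module.finrank_fintype_fun_eq_card, Fintype.card_coe, Finset.card_compl, Fintype.card_fin,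
    hT] at h3
  exact h3

theorem span_eq_dualS {n k : ℕ} (hk : k ≤ n) (h : Fin n → F) (hli : LinearIndependent Fq h)
    (G : Fin k → Fin n → F) (hG : LinearIndependent F G)
    (hGm : ∀ i, G i ∈ dualS F (Fintype.card Fq) (n - k) h) :
    Submodule.span F (Set.range G) = dualS F (Fintype.card Fq) (n - k) h := by
  apply Submodule.eq_of_le_of_finrank_le
  · rw [Submodule.span_le]
    rintro _ ⟨i, rfl⟩
    exact hGm i
  · rw [finrank_span_eq_card hG, Fintype.card_fin]
    have := dualS_finrank (n - k) (Nat.sub_le _ _) h hli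
    omega

theorem exists_gab [Finite F] {n k : ℕ} (hk1 : 1 ≤ k) (hk : k ≤ n) (h : Fin n → F)
    (hli : LinearIndependent Fq h) :
    ∃ g : Fin n → F, LinearIndependent Fq g ∧
      Submodule.span F (Set.range (fun (t : Fin k) (j : Fin n) => g j ^ (Fintype.card Fq) ^ (t : ℕ)))
        = dualS F (Fintype.card Fq) (n - k) h := by
  classical
  set q := Fintype.card Fq with hq
  have hsurj : Function.Surjective ((FiniteField.frobeniusAlgHom Fq F) ^ (k - 1)) :=
    Finite.injective_iff_surjective.mp
      ((FiniteField.frobeniusAlgHom Fq F ^ (k - 1)).toRingHom.injective)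
  choose h'' hh'' using fun j => hsurj (h j)
  have hpow : ∀ j, h'' j ^ q ^ (k - 1) = h j := by
    intro j
    rw [← hh'' j, frobPow]
  have hli'' : LinearIndependent Fq h'' := by
    apply LinearIndependent.of_comp ((FiniteField.frobeniusAlgHom Fq F) ^ (k - 1)).toLinearMap
    have : (((FiniteField.frobeniusAlgHom Fq F) ^ (k - 1)).toLinearMap ∘ h'') = h := by
      funext j
      exact hh'' j
    rw [this]
    exact hli
  obtain ⟨g, hg0, _, hgs⟩ := exists_word q (Finset.univ : Finset (Fin n)) h'' (n - 1)
    (by rw [Finset.card_univ, Fintype.card_fin]; omega)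
  have hgli : LinearIndependent Fq g := g_indep h'' hli'' g hg0 hgs
  refine ⟨g, hgli, ?_⟩
  apply span_eq_dualS hk h hli
  · rw [Fintype.linearIndependent_iff]
    intro a ha
    have h1 := moore_left (Fq := Fq) (Finset.univ : Finset (Fin n)) g (hgli.linearIndepOn _) k
      (by rw [Finset.card_univ, Fintype.card_fin]; exact hk)
      (fun t => if ht : t < k then a ⟨t, ht⟩ else 0) (by
        intro l _
        rw [← Fin.sum_univ_eq_sum_range
          (fun s => (if hs : s < k then a ⟨s, hs⟩ else 0) * g l ^ (Fintype.card Fq) ^ s)]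
        have h2 := congrFun ha l
        simpa using h2)
    intro i
    have := h1 i i.2
    simpa using this
  · intro t s hs
    have h1 : ∀ l, g l ^ q ^ (t : ℕ) * h l ^ q ^ s
        = ((FiniteField.frobeniusAlgHom Fq F) ^ (t : ℕ)) (g l * h'' l ^ q ^ (k - 1 + s - t)) := by
      intro l
      rw [map_mul, frobPow, frobPow, ← hpow l, ← pow_mul, ← pow_mul, ← hq, ← pow_add, ← pow_add]
      congr 3
      have := t.2
      omega
    show ∑ l, g l ^ q ^ (t : ℕ) * h l ^ q ^ s = 0
    rw [Finset.sum_congr rfl (fun l _ => h1 l), ← map_sum, hgs _ (by have := t.2; omega), map_zero]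

end Pool.Agent.V11325.GB
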