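import Mathlib
import Pool.Agent.V11325.GB.Generic

namespace Pool.Agent.V11325.GB

open Finset

variable {N ι : Type*} [DecidableEq N] [DecidableEq ι]

def Hall (r : ℕ) (T : ι → Finset N) : Prop :=
  ∀ Ω : Finset ι, Ω.Nonempty → Ω.card + r ≤ (Ω.biUnion T).card

theorem shrink_one (r : ℕ) (T : ι → Finset N) (hT : Hall r T) (i0 : ι) (x y : N)
    (hx : x ∈ T i0) (hy : y ∈ T i0) (hxy : x ≠ y) (hc : r + 2 ≤ (T i0).card) :
    Hall r (Function.update T i0 ((T i0).erase x)) ∨
    Hall r (Function.update T i0 ((T i0).erase y)) := by
  have key : ∀ z, ¬ Hall r (Function.update T i0 ((T i0).erase z)) →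
      ∃ A : Finset ι, i0 ∈ A ∧ ((A.erase i0).biUnion T ∪ (T i0).erase z).card < A.card + r := by
    intro z hz
    rw [Hall] at hz
    push Not at hz
    obtain ⟨A, hA, hlt⟩ := hz
    have hmem : i0 ∈ A := by
      by_contra hn
      have : A.biUnion (Function.update T i0 ((T i0).erase z)) = A.biUnion T :=
        Finset.biUnion_congr rfl (fun i hi => by
          have hii : i ≠ i0 := fun h => hn (h ▸ hi)
          rw [Function.update_of_ne hii])
      rw [this] at hlt
      exact absurd (hT A hA) (by omega)
    refine ⟨A, hmem, ?_⟩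
    have : A.biUnion (Function.update T i0 ((T i0).erase z))
        = (A.erase i0).biUnion T ∪ (T i0).erase z := by
      ext w
      simp only [Finset.mem_biUnion, Finset.mem_union]
      constructor
      · rintro ⟨i, hi, hw⟩
        by_cases hii : i = i0
        · rw [hii, Function.update_self] at hw; exact Or.inr hw
        · rw [Function.update_of_ne hii] at hw
          exact Or.inl ⟨i, Finset.mem_erase.mpr ⟨hii, hi⟩, hw⟩
      · rintro (⟨i, hi, hw⟩ | hw)
        · refine ⟨i, Finset.mem_of_mem_erase hi, ?_⟩
          rw [Function.update_of_ne (Finset.ne_of_mem_erase hi)]; exact hw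
        · exact ⟨i0, hmem, by rw [Function.update_self]; exact hw⟩
    rw [← this]; exact hlt
  by_contra hcon
  rw [not_or] at hcon
  obtain ⟨A, hA, hltA⟩ := key x hcon.1
  obtain ⟨B, hB, hltB⟩ := key y hcon.2
  set U := (A.erase i0).biUnion T ∪ (T i0).erase x with hU
  set V := (B.erase i0).biUnion T ∪ (T i0).erase y with hV
  have h1 : (U ∪ V).card + (U ∩ V).card = U.card + V.card := Finset.card_union_add_card_inter U V
  have h2 : (A ∪ B).card + (A ∩ B).card = A.card + B.card := Finset.card_union_add_card_inter A B
  have h3 : (A ∪ B).biUnion T ⊆ U ∪ V := by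
    intro w hw
    rw [Finset.mem_biUnion] at hw
    obtain ⟨i, hi, hwi⟩ := hw
    by_cases hii : i = i0
    · rw [hii] at hwi
      by_cases hwx : w = x
      · apply Finset.mem_union_right
        apply Finset.mem_union_right
        exact Finset.mem_erase.mpr ⟨by rw [hwx]; exact hxy, hwi⟩
      · apply Finset.mem_union_left
        apply Finset.mem_union_right
        exact Finset.mem_erase.mpr ⟨hwx, hwi⟩
    · rcases Finset.mem_union.mp hi with h | h
      · apply Finset.mem_union_left
        apply Finset.mem_union_left
        exact Finset.mem_biUnion.mpr ⟨i, Finset.mem_erase.mpr ⟨hii, h⟩, hwi⟩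
      · apply Finset.mem_union_right
        apply Finset.mem_union_left
        exact Finset.mem_biUnion.mpr ⟨i, Finset.mem_erase.mpr ⟨hii, h⟩, hwi⟩
  have h4 := Finset.card_le_card h3
  have h5 := hT (A ∪ B) ⟨i0, Finset.mem_union_left _ hA⟩
  have h6 : ((A ∩ B).erase i0).card + 1 = (A ∩ B).card :=
    Finset.card_erase_add_one (Finset.mem_inter.mpr ⟨hA, hB⟩)
  have h7 : (A ∩ B).card + r ≤ (U ∩ V).card + 1 := by
    by_cases hne : ((A ∩ B).erase i0).Nonempty
    · have h8 := hT _ hne
      have h9 : ((A ∩ B).erase i0).biUnion T ⊆ U ∩ V := by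
        intro w hw
        rw [Finset.mem_biUnion] at hw
        obtain ⟨i, hi, hwi⟩ := hw
        have hii := Finset.ne_of_mem_erase hi
        have hi' := Finset.mem_inter.mp (Finset.mem_of_mem_erase hi)
        refine Finset.mem_inter.mpr ⟨?_, ?_⟩
        · apply Finset.mem_union_left
          exact Finset.mem_biUnion.mpr ⟨i, Finset.mem_erase.mpr ⟨hii, hi'.1⟩, hwi⟩
        · apply Finset.mem_union_left
          exact Finset.mem_biUnion.mpr ⟨i, Finset.mem_erase.mpr ⟨hii, hi'.2⟩, hwi⟩
      have h10 := Finset.card_le_card h9
      omega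
    · rw [Finset.not_nonempty_iff_eq_empty] at hne
      rw [hne, Finset.card_empty] at h6
      have h9 : ((T i0).erase x).erase y ⊆ U ∩ V := by
        intro w hw
        have hwy := Finset.ne_of_mem_erase hw
        have hw' := Finset.mem_of_mem_erase hw
        refine Finset.mem_inter.mpr ⟨?_, ?_⟩
        · exact Finset.mem_union_right _ hw'
        · apply Finset.mem_union_right
          exact Finset.mem_erase.mpr ⟨hwy, Finset.mem_of_mem_erase hw'⟩
      have h10 := Finset.card_le_card h9
      have h11 : ((T i0).erase x).card + 1 = (T i0).card := Finset.card_erase_add_one hx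
      have h12 : (((T i0).erase x).erase y).card + 1 = ((T i0).erase x).card :=
        Finset.card_erase_add_one (Finset.mem_erase.mpr ⟨hxy.symm, hy⟩)
      omega
  omega

theorem shrink [Fintype ι] (r : ℕ) : ∀ (m : ℕ) (T : ι → Finset N), ∑ i, (T i).card ≤ m →
    Hall r T → ∃ T' : ι → Finset N, (∀ i, T' i ⊆ T i) ∧ (∀ i, (T' i).card = r + 1) ∧ Hall r T' := by
  intro m
  induction m with
  | zero =>
    intro T hm hT
    refine ⟨T, fun i => Finset.Subset.refl _, fun i => ?_, hT⟩
    exfalso
    have h1 := hT {i} ⟨i, Finset.mem_singleton_self i⟩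
    rw [Finset.singleton_biUnion, Finset.card_singleton] at h1
    have h2 : (T i).card ≤ ∑ i, (T i).card :=
      Finset.single_le_sum (f := fun i => (T i).card) (fun _ _ => Nat.zero_le _) (Finset.mem_univ i)
    omega
  | succ m ih =>
    intro T hm hT
    by_cases hall : ∀ i, (T i).card = r + 1
    · exact ⟨T, fun i => Finset.Subset.refl _, hall, hT⟩
    · push Not at hall
      obtain ⟨i0, hi0⟩ := hall
      have h1 := hT {i0} ⟨i0, Finset.mem_singleton_self i0⟩
      rw [Finset.singleton_biUnion, Finset.card_singleton] at h1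
      have hc : r + 2 ≤ (T i0).card := by omega
      obtain ⟨x, hx, y, hy, hxy⟩ := Finset.one_lt_card.mp (show 1 < (T i0).card by omega)
      have hstep : ∀ z ∈ T i0, Hall r (Function.update T i0 ((T i0).erase z)) →
          ∃ T' : ι → Finset N, (∀ i, T' i ⊆ T i) ∧ (∀ i, (T' i).card = r + 1) ∧ Hall r T' := by
        intro z hz hH
        obtain ⟨T', hsub, hcard, hH'⟩ := ih _ (by
          have h2 : ∑ i, (Function.update T i0 ((T i0).erase z) i).card + 1 = ∑ i, (T i).card := by
            rw [← Finset.sum_erase_add _ _ (Finset.mem_univ i0),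
              ← Finset.sum_erase_add _ (fun i => (T i).card) (Finset.mem_univ i0),
              Function.update_self, add_assoc, Finset.card_erase_add_one hz]
            congr 1
            exact Finset.sum_congr rfl
              (fun i hi => by rw [Function.update_of_ne (Finset.ne_of_mem_erase hi)])
          omega) hH
        refine ⟨T', fun i => ?_, hcard, hH'⟩
        refine (hsub i).trans ?_
        by_cases hii : i = i0
        · rw [hii, Function.update_self]; exact Finset.erase_subset _ _
        · rw [Function.update_of_ne hii]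
      rcases shrink_one r T hT i0 x y hx hy hxy hc with h | h
      · exact hstep x hx h
      · exact hstep y hy h

end Pool.Agent.V11325.GB
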