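import Mathlib
import Pool.Agent.V11325.GB.Generic

namespace Pool.Agent.V11325.GB

open Finset Matrix

theorem minor_field {K m n : Type*} [Field K] [Fintype m] [Fintype n] [DecidableEq n]
    (B : Matrix m n K) (hB : ∀ v, B *ᵥ v = 0 → v = 0) :
    ∃ f : n → m, (B.submatrix f id).det ≠ 0 := by
  classical
  have hinj : Function.Injective B.mulVecLin := by
    rw [← LinearMap.ker_eq_bot, LinearMap.ker_eq_bot']
    intro v hv
    exact hB v (by simpa using hv)
  have hrank : B.rank = Fintype.card n := by
    rw [Matrix.rank, LinearMap.finrank_range_of_inj hinj, Module.finrank_fintype_fun_eq_card]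
  have hrow : Module.finrank K (Submodule.span K (Set.range B.row)) = Fintype.card n := by
    rw [← Matrix.rank_eq_finrank_span_row, hrank]
  obtain ⟨f, hf, _, hli⟩ := Submodule.exists_fun_fin_finrank_span_eq K (Set.range B.row)
  choose g hg using hf
  let e : n ≃ Fin (Module.finrank K (Submodule.span K (Set.range B.row))) :=
    (Fintype.equivFin n).trans (finCongr hrow.symm)
  refine ⟨fun i => g (e i), ?_⟩
  have h1 : LinearIndependent K (B.submatrix (fun i => g (e i)) id).row := by
    have h2 : (B.submatrix (fun i => g (e i)) id).row = f ∘ e := by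
      funext i
      exact hg (e i)
    rw [h2]
    exact hli.comp e e.injective
  have h3 := Matrix.linearIndependent_rows_iff_isUnit.mp h1
  exact ((Matrix.isUnit_iff_isUnit_det _).mp h3).ne_zero

theorem minor_domain {R m n : Type*} [CommRing R] [IsDomain R] [Fintype m] [Fintype n]
    [DecidableEq n] (B : Matrix m n R) (hB : ∀ v, B *ᵥ v = 0 → v = 0) :
    ∃ f : n → m, (B.submatrix f id).det ≠ 0 := by
  classical
  let K := FractionRing R
  have hinjK : Function.Injective (algebraMap R K) := IsFractionRing.injective R K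
  obtain ⟨f, hf⟩ := minor_field (B.map (algebraMap R K)) (by
    intro v hv
    obtain ⟨b, hb⟩ := IsLocalization.exist_integer_multiples_of_finite (nonZeroDivisors R) v
    choose w hw using hb
    have hw0 : w = 0 := by
      apply hB
      funext i
      apply hinjK
      have h1 := congrFun hv i
      rw [Matrix.mulVec, dotProduct] at h1 ⊢
      rw [map_sum, Pi.zero_apply, map_zero]
      have h2 : ∀ j, algebraMap R K (B i j * w j) = (b : R) • (B.map (algebraMap R K) i j * v j) := by
        intro j
        rw [map_mul, hw j, Matrix.map_apply, mul_smul_comm]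
      rw [Finset.sum_congr rfl (fun j _ => h2 j), ← Finset.smul_sum, h1]
      simp
    funext i
    have h3 := hw i
    rw [hw0, Pi.zero_apply, map_zero] at h3
    have h4 : (b : R) ≠ 0 := nonZeroDivisors.ne_zero b.2
    rw [Algebra.smul_def] at h3
    rcases mul_eq_zero.mp h3.symm with h5 | h5
    · exact absurd (hinjK (by rw [h5, map_zero])) h4
    · exact h5)
  refine ⟨f, fun h0 => hf ?_⟩
  have h6 : (B.map (algebraMap R K)).submatrix f id = (algebraMap R K).mapMatrix (B.submatrix f id) := by
    ext i j; simp
  rw [h6, ← RingHom.map_det, h0, map_zero]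

variable {N ι : Type*} [DecidableEq N] [DecidableEq ι] [Fintype N] [Fintype ι]

/-- the block matrix whose kernel is the space of relations -/
def blockM {R : Type*} [CommRing R] (q r : ℕ) (T : ι → Finset N) (h : N → R) :
    Matrix ((ι × N) ⊕ ((ι × Fin r) ⊕ N)) (ι × N) R := fun a b =>
  match a with
  | Sum.inl (i, l) => if i = b.1 ∧ l = b.2 ∧ l ∉ T i then 1 else 0
  | Sum.inr (Sum.inl (i, s)) => if i = b.1 then h b.2 ^ q ^ (s : ℕ) else 0
  | Sum.inr (Sum.inr l) => if l = b.2 then 1 else 0

theorem blockM_iff {R : Type*} [CommRing R] (q r : ℕ) (T : ι → Finset N) (h : N → R)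
    (v : ι × N → R) :
    blockM q r T h *ᵥ v = 0 ↔ Rel q h univ T (fun _ => r) (fun i l => v (i, l)) := by
  have h1 : ∀ i l, (blockM q r T h *ᵥ v) (Sum.inl (i, l)) = if l ∉ T i then v (i, l) else 0 := by
    intro i l
    simp only [Matrix.mulVec, dotProduct, blockM]
    rw [Finset.sum_eq_single (i, l)]
    · by_cases hl : l ∈ T i <;> simp [hl]
    · intro b _ hb
      rw [if_neg, zero_mul]
      rintro ⟨h1, h2, _⟩
      exact hb (Prod.ext h1.symm h2.symm)
    · intro h; exact absurd (Finset.mem_univ _) h
  have h2 : ∀ i (s : Fin r), (blockM q r T h *ᵥ v) (Sum.inr (Sum.inl (i, s)))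
      = ∑ l, v (i, l) * h l ^ q ^ (s : ℕ) := by
    intro i s
    simp only [Matrix.mulVec, dotProduct, blockM]
    rw [Fintype.sum_prod_type, Finset.sum_eq_single i]
    · apply Finset.sum_congr rfl
      intro l _
      simp [mul_comm]
    · intro b _ hb
      apply Finset.sum_eq_zero
      intro l _
      simp [Ne.symm hb]
    · intro h; exact absurd (Finset.mem_univ _) h
  have h3 : ∀ l, (blockM q r T h *ᵥ v) (Sum.inr (Sum.inr l)) = ∑ i, v (i, l) := by
    intro l
    simp only [Matrix.mulVec, dotProduct, blockM]
    rw [Fintype.sum_prod_type]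
    apply Finset.sum_congr rfl
    intro i _
    simp
  have hsupp_sum : ∀ i, (∀ l, l ∉ T i → v (i, l) = 0) → ∀ s : ℕ,
      ∑ l, v (i, l) * h l ^ q ^ s = ∑ l ∈ T i, v (i, l) * h l ^ q ^ s := by
    intro i hi s
    symm
    apply Finset.sum_subset (Finset.subset_univ _)
    intro x _ hx
    rw [hi x hx, zero_mul]
  constructor
  · intro hv
    have hs : ∀ i, ∀ l, l ∉ T i → v (i, l) = 0 := by
      intro i l hl
      have := congrFun hv (Sum.inl (i, l))
      rw [h1, if_pos hl] at this
      exact this
    refine ⟨fun i _ => hs i, ?_, ?_⟩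
    · intro i _ s hs'
      rw [← hsupp_sum i (hs i) s]
      have := congrFun hv (Sum.inr (Sum.inl (i, ⟨s, hs'⟩)))
      rw [h2] at this
      exact this
    · intro l
      have := congrFun hv (Sum.inr (Sum.inr l))
      rw [h3] at this
      exact this
  · intro hr
    funext a
    rcases a with ⟨i, l⟩ | ⟨i, s⟩ | l
    · rw [h1]
      by_cases hl : l ∈ T i
      · simp [hl]
      · rw [if_pos hl]; exact hr.supp i (Finset.mem_univ _) l hl
    · rw [h2, hsupp_sum i (hr.supp i (Finset.mem_univ _))]
      exact hr.eqs i (Finset.mem_univ _) s s.2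
    · rw [h3]; exact hr.sum l

/-- degree bound -/
def degE (q r : ℕ) : ℕ := if r = 0 then 0 else q ^ (r - 1)

theorem blockM_deg {F : Type*} [Field F] (q r : ℕ) (hq : 1 < q) (T : ι → Finset N)
    (f : ι × N → (ι × N) ⊕ ((ι × Fin r) ⊕ N)) (j : N) :
    MvPolynomial.degreeOf j ((blockM q r T (MvPolynomial.X : N → MvPolynomial N F)).submatrix f id).det
      ≤ Fintype.card ι * degE q r := by
  classical
  rw [Matrix.det_apply']
  refine (MvPolynomial.degreeOf_sum_le _ _ _).trans ?_
  apply Finset.sup_le
  intro σ _
  refine (MvPolynomial.degreeOf_mul_le _ _ _).trans ?_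
  have h0 : MvPolynomial.degreeOf j ((((Equiv.Perm.sign σ : ℤˣ) : ℤ) : MvPolynomial N F)) = 0 := by
    rw [← map_intCast (MvPolynomial.C : F →+* MvPolynomial N F)]
    exact MvPolynomial.degreeOf_C _ _
  rw [h0, zero_add]
  refine (MvPolynomial.degreeOf_prod_le _ _ _).trans ?_
  have h1 : ∀ a (b : ι × N), MvPolynomial.degreeOf j
      (blockM q r T (MvPolynomial.X : N → MvPolynomial N F) a b) ≤ if b.2 = j then degE q r else 0 := by
    intro a b
    rcases a with ⟨i, l⟩ | ⟨i, s⟩ | l
    · simp only [blockM]
      split_ifs <;> simp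
    · simp only [blockM]
      by_cases hi : i = b.1
      · rw [if_pos hi]
        refine (MvPolynomial.degreeOf_pow_le _ _ _).trans ?_
        rw [MvPolynomial.degreeOf_X]
        by_cases hb : b.2 = j
        · rw [if_pos hb.symm, if_pos hb, mul_one]
          have hs := s.2
          rw [degE, if_neg (by omega)]
          exact Nat.pow_le_pow_right (by omega) (by omega)
        · rw [if_neg (fun h => hb h.symm)]; simp
      · rw [if_neg hi]; simp
    · simp only [blockM]
      split_ifs <;> simp
  refine (Finset.sum_le_sum (fun b _ => h1 _ b)).trans ?_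
  rw [Fintype.sum_prod_type]
  simp

end Pool.Agent.V11325.GB
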