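import Mathlib
import Pool.Agent.V11325.GB.Minor

namespace Pool.Agent.V11325.GB

open Finset Matrix

theorem select {Fq F : Type*} [Field Fq] [Fintype Fq] [Field F] [Fintype F] [Algebra Fq F] (D : ℕ) :
    ∀ (n : ℕ) (P : MvPolynomial (Fin n) F), P ≠ 0 → (∀ j, P.degreeOf j ≤ D) →
      (∀ j < n, Fintype.card Fq ^ j + D < Fintype.card F) →
      ∃ h : Fin n → F, LinearIndependent Fq h ∧ MvPolynomial.eval h P ≠ 0 := by
  classical
  intro n
  induction n with
  | zero =>
    intro P hP _ _
    refine ⟨Fin.elim0, linearIndependent_empty_type, ?_⟩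
    intro h0
    apply hP
    rw [MvPolynomial.eq_C_of_isEmpty P] at h0 ⊢
    rw [MvPolynomial.eval_C] at h0
    rw [h0, map_zero]
  | succ n ih =>
    intro P hP hdeg hF
    have hP' : MvPolynomial.finSuccEquiv F n P ≠ 0 := by
      intro h; exact hP ((map_eq_zero_iff _ (MvPolynomial.finSuccEquiv F n).injective).mp h)
    obtain ⟨h', hli, hev⟩ := ih ((MvPolynomial.finSuccEquiv F n P).leadingCoeff)
      (Polynomial.leadingCoeff_ne_zero.mpr hP')
      (fun j => (MvPolynomial.degreeOf_coeff_finSuccEquiv P j _).trans (hdeg j.succ))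
      (fun j hj => hF j (by omega))
    set Q := (MvPolynomial.finSuccEquiv F n P).map (MvPolynomial.eval h') with hQ
    have hQ0 : Q ≠ 0 := by
      intro h0
      have : Q.coeff (MvPolynomial.finSuccEquiv F n P).natDegree = 0 := by
        rw [h0, Polynomial.coeff_zero]
      rw [hQ, Polynomial.coeff_map] at this
      exact hev this
    have hQd : Q.natDegree ≤ D := by
      refine (Polynomial.natDegree_map_le).trans ?_
      rw [MvPolynomial.natDegree_finSuccEquiv]
      exact hdeg 0
    let S : Finset F := Finset.univ.image (fun μ : Fin n → Fq => ∑ i, μ i • h' i)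
    have hS : S.card ≤ Fintype.card Fq ^ n := by
      refine Finset.card_image_le.trans ?_
      rw [Finset.card_univ, Fintype.card_fun, Fintype.card_fin]
    have hlt : (S ∪ Q.roots.toFinset).card < Fintype.card F := by
      have h1 := Finset.card_union_le S Q.roots.toFinset
      have h2 := Multiset.toFinset_card_le Q.roots
      have h3 := Polynomial.card_roots' Q
      have h4 := hF n (by omega)
      omega
    obtain ⟨t, ht⟩ : ∃ t, t ∉ S ∪ Q.roots.toFinset := by
      by_contra hno
      push Not at hno
      have : S ∪ Q.roots.toFinset = Finset.univ := Finset.eq_univ_iff_forall.mpr hno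
      rw [this, Finset.card_univ] at hlt
      exact lt_irrefl _ hlt
    rw [Finset.mem_union, not_or] at ht
    refine ⟨Fin.cons t h', ?_, ?_⟩
    · rw [linearIndependent_finCons]
      refine ⟨hli, ?_⟩
      intro hmem
      apply ht.1
      rw [Submodule.mem_span_range_iff_exists_fun] at hmem
      obtain ⟨c, hc⟩ := hmem
      exact Finset.mem_image.mpr ⟨c, Finset.mem_univ _, hc⟩
    · rw [MvPolynomial.eval_eq_eval_mv_eval']
      intro h0
      apply ht.2
      rw [Multiset.mem_toFinset, Polynomial.mem_roots hQ0]
      exact h0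

theorem exists_good {Fq F : Type*} [Field Fq] [Fintype Fq] [Field F] [Fintype F] [Algebra Fq F]
    (n k r : ℕ) (T : Fin k → Finset (Fin n)) (hpos : Pos univ T (fun _ => r))
    (hstar : Star univ T (fun _ => r))
    (hF : ∀ j < n, Fintype.card Fq ^ j + k * degE (Fintype.card Fq) r < Fintype.card F) :
    ∃ h : Fin n → F, LinearIndependent Fq h ∧ Indep (Fintype.card Fq) h univ T (fun _ => r) := by
  classical
  set q := Fintype.card Fq with hq
  have hq1 : 1 < q := Fintype.one_lt_card
  have hgen : Indep (R := MvPolynomial (Fin n) F) q MvPolynomial.X univ T (fun _ => r) :=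
    generic (Fq := Fq) _ univ T (fun _ => r) (Nat.le_add_right _ _) hpos hstar
  obtain ⟨f, hf⟩ := minor_domain (blockM q r T (MvPolynomial.X : Fin n → MvPolynomial (Fin n) F)) (by
    intro v hv
    rw [blockM_iff] at hv
    funext a
    exact hgen _ hv a.1 (Finset.mem_univ _) a.2)
  obtain ⟨h, hli, hev⟩ := select (Fq := Fq) (k * degE q r) n _ hf (fun j => by
    have := blockM_deg (F := F) q r hq1 T f j
    rwa [Fintype.card_fin] at this) hF
  refine ⟨h, hli, ?_⟩
  have hdet : ((blockM q r T h).submatrix f id).det ≠ 0 := by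
    have h1 : (blockM q r T h).submatrix f id
        = (MvPolynomial.eval h).mapMatrix
          ((blockM q r T (MvPolynomial.X : Fin n → MvPolynomial (Fin n) F)).submatrix f id) := by
      ext a b
      simp only [RingHom.mapMatrix_apply, Matrix.map_apply, Matrix.submatrix_apply, id]
      rcases f a with ⟨i, l⟩ | ⟨i, s⟩ | l
      · simp only [blockM]; split_ifs <;> simp
      · simp only [blockM]; split_ifs <;> simp
      · simp only [blockM]; split_ifs <;> simp
    rw [h1, ← RingHom.map_det]
    exact hev
  intro c hc i hi l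
  have h2 : blockM q r T h *ᵥ (fun a : Fin k × Fin n => c a.1 a.2) = 0 := by
    rw [blockM_iff]; exact hc
  have h3 : (blockM q r T h).submatrix f id *ᵥ (fun a : Fin k × Fin n => c a.1 a.2) = 0 := by
    funext a
    have := congrFun h2 (f a)
    simpa [Matrix.mulVec, dotProduct] using this
  have h4 := Matrix.eq_zero_of_mulVec_eq_zero hdet h3
  exact congrFun h4 (i, l)

end Pool.Agent.V11325.GB
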